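import Pool.Agent.MP_3ee8cb_gt.DN.Spec

/-! A time shift of a conjugacy of class `C¹` is of class `C¹`. -/

namespace Pool.Agent.MP_3ee8cb_gt.DN

variable [Dim]

open Set Filter Topology
open CR (Met UT)

theorem C1L.comp {g h k : Met dm} {F : UT g → UT h} {G : UT h → UT k} (hG : C1L G) (hF : C1L F)
    (hc : Continuous F) : C1L fun p => G (F p) := fun p => by
  obtain ⟨A, a1, a2⟩ := hF p
  obtain ⟨B, b1, b2⟩ := hG (F p)
  rw [a2.self_of_nhds] at b1
  refine ⟨B ∘ A, b1.comp _ a1, ?_⟩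
  filter_upwards [a2, (hc.tendsto p).eventually b2] with q h1 h2
  rw [h2, h1]
  rfl

theorem c1L_flow {h : Met dm} {C : TB.Chr dm} {Ψ : ℝ → UT h → UT h} {m : MF} (hm : m.OK)
    (hl : Lk h C Ψ m) (c : ℝ) : C1L (Ψ c) := fun p => by
  have h1 : ContDiff ℝ 1 fun z : V × V => m.Z c (z.1, m.S z.1 z.2) :=
    hm.cZ.comp (contDiff_const.prodMk (contDiff_fst.prodMk
      (((hm.cS.of_le one_le_two).comp contDiff_fst).clm_apply contDiff_snd)))
  refine ⟨fun z => ((m.Z c (z.1, m.S z.1 z.2)).1,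
    m.R (m.Z c (z.1, m.S z.1 z.2)).1 (m.Z c (z.1, m.S z.1 z.2)).2),
    (h1.fst.prodMk (((hm.cR.of_le one_le_two).comp h1.fst).clm_apply h1.snd)).contDiffAt,
    Eventually.of_forall fun q => ?_⟩
  simp only [hl.flow, hm.RS]

theorem sC1_of (frm : SFRM) : SC1 := by
  intro g h C C' Γ Λ _ _ _ _ Φ Ψ ρ F _ qh _ hC' _ _ _ c F' e h1 h2
  obtain ⟨m, hm, hl⟩ := frm h C' Λ Ψ qh hC'
  have e1 : (F' : UT g → UT h) = fun p => Ψ c (F p) := funext e
  have e2 : (F'.symm : UT h → UT g) = fun w => F.symm (Ψ (-c) w) := funext fun w => by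
    rw [F'.symm_apply_eq, e, F.apply_symm_apply, ← qh.add, add_neg_cancel, qh.rp.flow.zero]
  rw [e1, e2]
  exact ⟨(c1L_flow hm hl c).comp h1 F.continuous, h2.comp (c1L_flow hm hl (-c))
    (qh.jc.comp (continuous_const.prodMk continuous_id))⟩

end Pool.Agent.MP_3ee8cb_gt.DN
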